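import Pool.Agent.V11168.MV.Main

/-!
# Abundance for projective manifolds with multivalued holomorphic 1-forms along the fibres of a map

Let `X` be a projective manifold of dimension `d + r` with function field `K`, and `f : X → B` a dominant
rational map, `dim B = d`, with `M ⊂ K` the function field of `B` (`B` may be a point: `d = 0`). A
multivalued 1-form on `X` is a `K`-linear map `ω` from the rational vector fields to the algebraic closure
of `K`. It is holomorphic (`MultiReg`) if along each prime divisor `v` over `X` its values on the vector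
fields which are regular along `v` are integral over the local ring of `v`. It is assumed that no rational
vector field on `X` which is tangent to the fibres of `f` is killed by all the multivalued holomorphic
1-forms `ω i`. (In the algebraic closure of `K` there can be such vector fields: a single `ω`, with `r`
conjugates which are linearly independent along the fibres, is enough.)

`Δ_B` is a divisor on `B`, given by its multiplicities `δB u ≤ 1` along all prime divisors `u` over `B`:
if a prime divisor `v` over `X` lies over `u`, with multiplicity `c`, then `δB u ≤ 1 - 1 / c` (for example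
`Δ_B = 0`, or on suitable models the orbifold base of Campana). It is assumed that
`κ (K_B + Δ_B) ≥ 0`; nothing else is assumed on `B`.

Abundance for the projective manifold `X` with `K_X` nef is equivalent to the equality `κ (X) = ν (X)` of
the Kodaira dimension and of the numerical dimension (Kawamata); both are defined and considered here for
the field `K`.
-/

set_option autoImplicit false

open FF IntermediateField Pool.Agent.W619.PQ Pool.Agent.W619.TW Pool.Agent.W619.Y
  Pool.Agent.Y173.QA Pool.Agent.Y174 Pool.Agent.V11168.Rel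

namespace Pool.Agent.Results.MP_97d78d_ag.MultivaluedFormsOverBase

/-- `κ (X) ≥ h` for the projective manifolds of dimension `n` over `k` with the function field `K`: for
some `m ≥ 1` there are `h + 1` regular `m`-fold pluricanonical forms whose `h` ratios are algebraically
independent. -/
def KodairaGe (k K : Type) [Field k] [Field K] [Algebra k K] (n h : ℕ) : Prop := KodTr k K n h

/-- `ν (X) ≤ h` for the canonical bundle of the projective manifolds of dimension `n` over `k` with the
function field `K`: for every divisor `A` there is `C` with `h⁰ (m K_X + A) ≤ C m ^ h` for all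
`m ≥ 1`. -/
def NumericalLe (k K : Type) [Field k] [Field K] [Algebra k K] (n h : ℕ) : Prop :=
  NumLe k K n (fun _ => False) h

/-- `κ (X) = ν (X) = a` for the projective manifolds of dimension `n` over `k` with the function field
`K`. -/
def HasAbundance (k K : Type) [Field k] [Field K] [Algebra k K] (n a : ℕ) : Prop :=
  ∀ h, (KodairaGe k K n h ↔ h ≤ a) ∧ (NumericalLe k K n h ↔ a ≤ h)

/-- **Theorem.** Let `f : X → B`, `M ⊂ K`, `Δ_B` and the multivalued holomorphic 1-forms `ω i` be as above,
with `κ (K_B + Δ_B) ≥ 0`. Then `κ (X) ≥ κ (K_B + Δ_B) ≥ 0`. (`PairKod ℂ M d δB h` means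
`κ (K_B + Δ_B) ≥ h`.) Moreover `X` has a finite Galois cover `Z`, with function field `L`, and `r`
holomorphic 1-forms `θ i` which are linearly independent on the general fibre of `Z → B`, such that
`κ (X) = κ (Z)` and `ν (X) ≤ ν (Z)`; if `κ (Z) = ν (Z)`, then `κ (X) = ν (X)`. So abundance for
manifolds with a map to `B` such that the components of the general fibres have maximal Albanese dimension
implies abundance for the manifolds `X`. -/
theorem result {K : Type} [Field K] [Algebra ℂ K] [Algebra.EssFiniteType ℂ K]
    (M : IntermediateField ℂ K) [Algebra.EssFiniteType ℂ M] {d r s : ℕ}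
    (hM : Algebra.trdeg ℂ M = d) (hn : Algebra.trdeg ℂ K = (d + r : ℕ))
    -- the divisor on the base
    {δB : Place ℂ M → ℝ} (hB : ∀ u, δB u ≤ 1)
    (hX : ∀ v : Place ℂ K, IsDivisorial v (d + r) → ∀ (u : Place ℂ M) (c : ℕ), LiesOn v u c →
      δB u ≤ 1 - 1 / c)
    (hκ : PairKod ℂ M d δB 0)
    -- the multivalued forms
    (ω : Fin s → Derivation ℂ K K →ₗ[K] AlgebraicClosure K)
    (hreg : ∀ i, MultiReg (d + r) (ω i))
    (hker : ∀ D : Derivation ℂ K K, (∀ x ∈ M, D x = 0) → (∀ i, ω i D = 0) → D = 0) :
    (∀ h, PairKod ℂ M d δB h → KodairaGe ℂ K (d + r) h) ∧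
    ∃ L : IntermediateField K (AlgebraicClosure K), FiniteDimensional K L ∧ IsGalois K L ∧
      (∃ θ : Fin r → (Derivation ℂ L L →ₗ[L] L),
        (∀ i, IsRegForm (d + r) (θ i)) ∧
        ∀ c : Fin r → L, (∀ D : Derivation ℂ L L, (∀ x ∈ M, D (algebraMap K L x) = 0) →
          ∑ i, c i * θ i D = 0) → c = 0) ∧
      (∀ h, KodairaGe ℂ K (d + r) h ↔ KodairaGe ℂ L (d + r) h) ∧
      (∀ h, NumericalLe ℂ L (d + r) h → NumericalLe ℂ K (d + r) h) ∧
      ∀ a, HasAbundance ℂ L (d + r) a → HasAbundance ℂ K (d + r) a := by
  obtain ⟨L, h1, h2, ⟨θ, h3, h4⟩, h5, h6⟩ := Pool.Agent.V11168.MV.mv_main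
    (Ω := AlgebraicClosure K) ‹Algebra.EssFiniteType ℂ K› M ‹Algebra.EssFiniteType ℂ M› hM hn
    (fun _ => False) (fun _ => 0) (fun _ => le_rfl) (fun _ h => h.elim) hB
    (fun v hv u c hc => by
      have h1 := hX v hv u c hc
      have h2 : (0 : ℝ) < c := by exact_mod_cast hc.1
      have h3 : (c : ℝ) * (1 / c) = 1 := by field_simp
      have h4 := mul_le_mul_of_nonneg_left (show 1 / (c : ℝ) ≤ 1 - δB u by linarith) h2.le
      linarith)
    hκ ω (fun i v hv D hD => hreg i v hv D (hD.1 fun h => h)) hker
  have hpull : IsPull (fun _ : Place ℂ K => (0 : ℝ)) (fun _ : Place ℂ L => (0 : ℝ)) := by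
    intro v w e he
    have h7 : (1 : ℝ) ≤ e := by exact_mod_cast he.1
    rw [max_eq_left (by linarith)]
  obtain ⟨h8, h9⟩ := h6 _ hpull
  have hk : ∀ h, KodTr ℂ K (d + r) h ↔ KodTr ℂ L (d + r) h := fun h => by
    rw [← pairKod_zero, ← pairKod_zero]
    exact h8 h
  have hv : ∀ h, NumLe ℂ L (d + r) (fun _ => False) h → NumLe ℂ K (d + r) (fun _ => False) h :=
    fun h hh => by
      rw [← pairNum_zero] at hh ⊢
      exact h9 h hh
  unfold HasAbundance KodairaGe NumericalLe
  refine ⟨fun h hh => pairKod_zero.1 (h5 h hh), L, h1, h2,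
    ⟨θ, fun i w hw D hD => h4 i w hw D ⟨fun _ => hD, fun ⟨_, _, _, h⟩ => h.elim⟩, h3⟩, hk, hv,
    fun a ha h => ?_⟩
  have h10 : PairKod ℂ K (d + r) (fun _ => 0) a := pairKod_zero.2 ((hk a).2 ((ha a).1.2 le_rfl))
  have h11 : PairNum ℂ K (d + r) (fun _ => 0) a := pairNum_zero.2 (hv a ((ha a).2.2 le_rfl))
  rw [← pairKod_zero, ← pairNum_zero]
  exact ⟨⟨fun h12 => pair_le h12 h11, fun h12 => pairKod_mono h12 h10⟩,
    ⟨fun h12 => pair_le h10 h12, fun h12 => pairNum_mono h12 h11⟩⟩

end Pool.Agent.Results.MP_97d78d_ag.MultivaluedFormsOverBase
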