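import Pool.Agent.V11168.Pair.Strict

/-!
# Abundance for quotients: comparison with the cover

Let `Z → B` be a dominant rational map of projective manifolds, `dim B = d`, `dim Z = d + (r + 1)`,
with the function fields `M ⊂ L` (`B` may be a point), `Δ_B` a divisor on `B` with multiplicities at
most `1` and `κ (K_B + Δ_B) ≥ 0` (for example `κ (B) ≥ 0` and `Δ_B = 0`), `V` a space of holomorphic
1-forms on `Z` (regular along all prime divisors over `Z`), `r + 1` of which are linearly independent
relative to `B` (for example, `Z` is generically finite over its image in `B × A`, where `A` is an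
abelian variety), and `G` a finite group of birational automorphisms of `Z` which preserves `V`; it need
not preserve the map to `B`. Let `X` be a projective manifold birational to `Z / G`; its function field
is the field of invariants `fixedField G`.

* `BaseBound ... (fun _ => 0) δB`: if the prime divisor `w` over `Z` is not ramified over `X`, and lies
  over the prime divisor `u` over `B` with multiplicity `c`, then `1 ≤ c (1 - δB u)`; for `Δ_B = 0` this
  holds always.
* `ReidTaiStrict ... (fun _ => 0) δB 1` (strict condition of Reid-Tai type): if `w` has ramification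
  index `e ≥ 2` over `X`, `g` in `G`, of order `e`, fixes `w` pointwise, and `θ 1, ..., θ (r + 1)` in `V`,
  independent relative to `B`, are eigenvectors of `g` with the eigenvalues `ζ ^ a i`, `0 ≤ a i < e`, `ζ`
  a primitive `e`-th root of unity, then `c (1 - δB u) + a 1 + ... + a (r + 1) ≥ e + 1`, where `c = 0` if
  `w` dominates `B`, and `w` lies over `u` with multiplicity `c` otherwise. (For `Δ_B = 0`:
  `c + a 1 + ... + a (r + 1) > e`.) We only need `≥ e + ε` for some `ε > 0`.
-/

set_option autoImplicit false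

open FF IntermediateField Pool.Agent.W619.PQ Pool.Agent.W619.TW Pool.Agent.W619.Y Pool.Agent.Y173.QA
  Pool.Agent.Y173.QM Pool.Agent.Y174 Pool.Agent.V11168.Rel Pool.Agent.V11168.Pair

namespace Pool.Agent.Results.MP_97d78d_ag.ReidTaiComparison

/-- `κ (X) = ν (X) = a` for the projective manifolds of dimension `n` over `k` with the function field
`K`: for some `m ≥ 1` there are `h + 1` regular `m`-fold pluricanonical forms whose `h` ratios are
algebraically independent (`KodTr`) exactly for `h ≤ a`; and for every divisor `A` there is `C` with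
`h⁰ (m K_X + A) ≤ C m ^ h` for all `m ≥ 1` (`NumLe`) exactly for `h ≥ a`. -/
def HasAbundance (k K : Type) [Field k] [Field K] [Algebra k K] (n a : ℕ) : Prop :=
  ∀ h, (KodTr k K n h ↔ h ≤ a) ∧ (NumLe k K n (fun _ => False) h ↔ a ≤ h)

/-- **Theorem.** Let `Z → B`, `M ⊂ L`, `Δ_B`, `V`, `G` and `X` be as above. Then `κ (X) = κ (Z)` and
`ν (X) ≤ ν (Z)`. So if `κ = ν` holds for `Z`, then it holds for `X`. -/
theorem result {L : Type} [Field L] [Algebra ℂ L] [Algebra.EssFiniteType ℂ L]
    -- the base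
    (M : IntermediateField ℂ L) [Algebra.EssFiniteType ℂ M] {d r : ℕ}
    (hM : Algebra.trdeg ℂ M = d) (hn : Algebra.trdeg ℂ L = (d + (r + 1) : ℕ))
    {δB : Place ℂ M → ℝ} (hB : ∀ u, δB u ≤ 1) (hB0 : PairKod ℂ M d δB 0)
    -- the group and the forms
    (G : Subgroup (L ≃ₐ[ℂ] L)) [Finite G]
    (V : Submodule ℂ (Derivation ℂ L L →ₗ[L] L)) (hreg : ∀ θ ∈ V, IsRegForm (d + (r + 1)) θ)
    (hstab : ∀ g ∈ G, ∀ θ ∈ V, ∃ θ' ∈ V, IsImage g θ θ')
    (hind : ∃ θ : Fin (r + 1) → Derivation ℂ L L →ₗ[L] L, (∀ i, θ i ∈ V) ∧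
      IndepOver (m := d) M θ)
    -- the conditions on the divisors
    (hBX : BaseBound (d + (r + 1)) G M (fun _ => False) (fun _ => 0) δB)
    {ε : ℝ} (hε : 0 < ε)
    (hRT : ReidTaiStrict d (r + 1) G M V (fun _ => False) (fun _ => 0) δB ε) :
    (∀ h, KodTr ℂ (fixedField G) (d + (r + 1)) h ↔ KodTr ℂ L (d + (r + 1)) h) ∧
      (∀ h, NumLe ℂ L (d + (r + 1)) (fun _ => False) h →
        NumLe ℂ (fixedField G) (d + (r + 1)) (fun _ => False) h) ∧
      ∀ a, HasAbundance ℂ L (d + (r + 1)) a → HasAbundance ℂ (fixedField G) (d + (r + 1)) a := by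
  have hfd : FiniteDimensional (fixedField G) L := fd_fixed G
  obtain ⟨θ, hθ, hθi⟩ := hind
  have hnK : Algebra.trdeg ℂ (fixedField G) = (d + (r + 1) : ℕ) := trdeg_fixed G hn
  obtain ⟨zK, hzK⟩ := Pool.Agent.W636.PG.exists_basis ℂ (fixedField G) _ hnK
  have hess : Algebra.EssFiniteType ℂ (fixedField G) :=
    Pool.Agent.Y174.ess_down (L := L) inferInstance zK hzK
  have hlog : ∀ θ ∈ V, IsLogForm (d + (r + 1)) (BdOn fun _ : Place ℂ (fixedField G) => False) θ :=
    fun θ hθ w hw D hD => hreg θ hθ w hw D (hD.1 fun ⟨_, _, _, h⟩ => h)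
  have hpull : IsPull (fun _ : Place ℂ (fixedField G) => 0) (fun _ : Place ℂ L => 0) := isPull_zero
  have h1 : ∀ h, PairKod ℂ (fixedField G) (d + (r + 1)) (fun _ => 0) h ↔
      PairKod ℂ L (d + (r + 1)) (fun _ => 0) h := fun h =>
    ⟨fun h2 => pair_up hess hnK hpull h2, fun h2 => transfer hM hn G (fun _ => le_rfl)
      (Bd := fun _ => False) (fun _ h => h.elim) hlog hstab hB hBX hε hRT hθ hθi hB0 hpull h2⟩
  have h2 : ∀ h, PairNum ℂ L (d + (r + 1)) (fun _ => 0) h →
      PairNum ℂ (fixedField G) (d + (r + 1)) (fun _ => 0) h :=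
    fun h h3 => pair_num hess hnK hpull h3
  refine ⟨fun h => ?_, fun h => ?_, fun a ha h => ?_⟩
  · rw [← pairKod_zero, ← pairKod_zero]
    exact h1 h
  · rw [← pairNum_zero, ← pairNum_zero]
    exact h2 h
  · have h3 : PairKod ℂ (fixedField G) (d + (r + 1)) (fun _ => 0) a :=
      (h1 a).2 (pairKod_zero.2 ((ha a).1.2 le_rfl))
    have h4 : PairNum ℂ (fixedField G) (d + (r + 1)) (fun _ => 0) a :=
      h2 a (pairNum_zero.2 ((ha a).2.2 le_rfl))
    rw [← pairKod_zero, ← pairNum_zero]
    exact ⟨⟨fun h5 => pair_le h5 h4, fun h5 => pairKod_mono h5 h3⟩,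
      ⟨fun h5 => pair_le h3 h5, fun h5 => pairNum_mono h5 h4⟩⟩

end Pool.Agent.Results.MP_97d78d_ag.ReidTaiComparison
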