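import Pool.Agent.V5SU.Lin

/-!
# Abundance for varieties with a linear system with powerful members and superelliptic fibres

Let `X` be a projective variety with canonical singularities (for instance a projective manifold), of
any dimension, and let `|V|` be a linear system on `X` of dimension `n` (it may have fixed components)
whose rational map `X ⇢ ℙⁿ` has an image `Y` of dimension `d`, `1 ≤ d ≤ n`; the image may be any
nondegenerate variety, for instance a rational one. Suppose:

* (the base) `D i` (`i < q`) are finitely many members of `|V|` which span `V`, in arbitrary position,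
  but the configuration is connected: `V` is not the direct sum of two nonzero subspaces such that
  each `D i` belongs to one of them; and the members are highly divisible: for every prime divisor `P`
  of `X` at which some `D i` has more than the generic multiplicity, the difference of the
  multiplicities of `P` in two of the members is at least `s > (n + 2) (n - d + 1) (n - d + 2) / 2` (if
  there are at least `n + 3` different members then `n + 1` can be taken instead of `n + 2`); the
  number `q` of the members does not appear in the bound;
* (the fibres) `X` is birational to the fibre product over `Y'` of `e` arbitrary cyclic covers of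
  `Y' × P^1`, where the function field `F` of `Y'` is the algebraic closure of `ℂ(Y)` in `ℂ(X)`; that
  is, `ℂ(X)` is generated over `F` by `x j`, `z j`, `j < e`, the `x j` are algebraically independent
  over `F`, and

  `z j ^ m j = c j * ∏ k, g j k (x j) ^ a j k`, `m j ≥ 1`, `a j k ≥ 0`, `c j ≠ 0` in `F`,

  where the `g j k` are polynomials over `F`, `g j k` of degree `δ j k`, square free and pairwise
  without common roots (for given `j`).

Let `W j = ∑ k, δ j k * (1 - gcd (m j, a j k) / m j) + 1 - gcd (m j, ∑ k, a j k * δ j k) / m j`; if
`C j` is the curve over `F` given by the `j`-th equation, of genus `g j`, and of degree `n j` over the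
line, then `2 g j - 2 = n j * (W j - 2)`. Then `κ(X) = ν(X)`: `K_X` is
pseudo-effective if and only if `W j ≥ 2` (`g j ≥ 1`) for all `j`, and then `κ(X) = ν(X)` is `d` plus
the number of the `j` with `W j > 2` (`g j ≥ 2`); otherwise `κ(X) = ν(X) = -∞`.
In particular, for all projective manifolds in this class with
nef canonical bundle, `K_X` is semiample: by a theorem of Kawamata, which is not part of the formal
proof, this is equivalent to `κ(X) = ν(X)`.

The bound for the multiplicities is explicit and depends only on `n` and `d`, not on the image `Y`, on
the members or on their number; the moduli of the curves may vary.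

The language and the definitions of `Pool.Agent.Y172` are used: `X` is given by the homogeneous
coordinates `v` of its generic point, with values in the function field `K` of `X`; the prime divisors
of `X` are places `P` of `K`, `P.ord` is the order along `P`. If `a` is the minimum of the orders at
`P` of the members of `V` then the multiplicity of `P` in the moving part of the divisor of the
system which is given by `f ∈ V` is `P.ord f - a`.

Proof: the pluricanonical forms are products of powers of generalised Wronskians of `V`, divided by
products of members (`lin_fib`), and of forms along the fibres (`cyc_low`); the upper bound is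
`cyc_can`. If `W j < 2` then the local monodromies of the `j`-th cyclic cover of the line are trivial
except at two points at most (`Pool.Agent.V5SU.branch`), and over the algebraic closure of the function
field of the product of the other factors the curve is parametrised by the line (`exists_par`,
`unir_cyc`).
-/

set_option autoImplicit false

open FF Pool.Agent.W602.GT Pool.Agent.Y172 Pool.Agent.Y191

namespace Pool.Agent.Results.MP_97d78d_ag.SuperellipticLinearSystems

section

variable {K : Type} [Field K] [Algebra ℂ K] {N : ℕ}

/-- `X` is a projective variety of dimension `n` with canonical singularities, `v` is its generic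
point. -/
def IsCanonicalVariety (v : Fin (N + 1) → K) (n : ℕ) : Prop :=
  NormalModel v ∧ Algebra.trdeg ℂ K = n ∧ Canonical v n

/-- The function field of the image of the rational map which is given by the linear system `V`: the
field generated by the quotients of the members. -/
noncomputable def ImageField (V : Submodule ℂ K) : IntermediateField ℂ K :=
  IntermediateField.adjoin ℂ {y : K | ∃ f ∈ V, ∃ g ∈ V, y = f / g}

/-- The configuration of the members `φ i` is connected: `V` is not the direct sum of two nonzero
subspaces such that each `φ i` belongs to one of them. -/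
def Connected {q : ℕ} (V : Submodule ℂ K) (φ : Fin q → K) : Prop :=
  ∀ W₁ W₂ : Submodule ℂ K, W₁ ⊔ W₂ = V → Disjoint W₁ W₂ → (∀ i, φ i ∈ W₁ ∨ φ i ∈ W₂) →
    W₁ = ⊥ ∨ W₂ = ⊥

/-- There are `r` members `φ i` of which no two are proportional. -/
def Different (r : ℕ) {q : ℕ} (φ : Fin q → K) : Prop :=
  ∃ τ : Fin r → Fin q, ∀ i j, i ≠ j → ∀ t : ℂ, φ (τ i) ≠ t • φ (τ j)

/-- The condition on the multiplicities: if at the prime divisor `P` of `X` the order of some `φ i` is
not the minimum `a` of the orders of the members of `V`, then for some members `D i`, `D i'` the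
difference of the multiplicities of `P` is at least `s`. -/
def Multiplicities {q : ℕ} (V : Submodule ℂ K) (φ : Fin q → K) (v : Fin (N + 1) → K)
    (s : ℝ) : Prop :=
  ∀ P, IsPrimeDivisor v P → ∀ a : ℤ, (∀ f ∈ V, f = 0 ∨ a ≤ P.ord f) →
    (∃ f ∈ V, f ≠ 0 ∧ P.ord f = a) → (∃ i, P.ord (φ i) ≠ a) →
    ∃ i i', s ≤ ((P.ord (φ i) - P.ord (φ i') : ℤ) : ℝ)

/-- Let `F` be the algebraic closure of `L` in `K`. The field `K` is generated over `F` by elements
`x j`, `z j` with `z j ^ m j = c j * ∏ k, g j k (x j) ^ a j k`, where the `x j` are algebraically
independent over `F`, `m j ≥ 1`, `c j` is a nonzero element of `F`, and the `g j k` are polynomials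
over `F` of degree `δ j k`, square free and pairwise without common roots for given `j`. -/
def CyclicFibres (L : IntermediateField ℂ K) {e : ℕ} (m t : Fin e → ℕ)
    (δ a : ∀ j, Fin (t j) → ℕ) : Prop :=
  ∃ (x z c : Fin e → K) (g : ∀ j, Fin (t j) → Polynomial (acl ℂ (L : Set K))),
    CycData (acl ℂ (L : Set K)) x z m t g a c ∧ ∀ j k, (g j k).natDegree = δ j k

end

/-- `W = ∑ k, δ k * (1 - gcd (m, a k) / m) + 1 - gcd (m, ∑ k, a k * δ k) / m` -/
def weight (m : ℕ) {t : ℕ} (δ a : Fin t → ℕ) : ℚ :=
  ∑ k, δ k * (1 - (m.gcd (a k) : ℚ) / m) + (1 - (m.gcd (∑ k, a k * δ k) : ℚ) / m)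


theorem wsum_eq {K : Type} [Field K] [Algebra ℂ K] {F : IntermediateField ℂ K} {e : ℕ}
    {m t : Fin e → ℕ} {g : ∀ j, Fin (t j) → Polynomial F} {a δ : ∀ j, Fin (t j) → ℕ}
    (hd : ∀ j k, (g j k).natDegree = δ j k) (j : Fin e) :
    wsum m t g a j = weight (m j) (δ j) (a j) := by
  unfold wsum weight wtc
  simp only [hd]

/-- Let `X` be a projective variety of dimension `d + e` with canonical singularities, `V` a linear
system of dimension `n` on `X` whose rational map has an image `Y` of dimension `d`, `1 ≤ d ≤ n`;
`φ i` nonzero members which span `V` and form a connected configuration, `R = n + 2`, or `R = n + 1` if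
there are `n + 3` different members, and `s > R (n - d + 1) (n - d + 2) / 2` a number for which the
condition on the multiplicities holds; let `ℂ(X)` be the function field of a fibre product of `e`
cyclic covers of the line over the algebraic closure of `ℂ(Y)` in `ℂ(X)` (`CyclicFibres`). If
`W j < 2` for some `j` then the Kodaira dimension and the numerical dimension of
`K_X` are `-∞`; otherwise both are `d` plus the number of the `j` with `W j > 2`. -/
theorem result (d n q : ℕ) (hd : 1 ≤ d) (hdn : d ≤ n) (K : Type) [Field K] [Algebra ℂ K]
    (N e : ℕ) (m t : Fin e → ℕ) (δ a : ∀ j, Fin (t j) → ℕ) (v : Fin (N + 1) → K)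
    (hX : IsCanonicalVariety v (d + e))
    (V : Submodule ℂ K) (hn : Module.finrank ℂ V = n + 1)
    (hV : Algebra.trdeg ℂ (ImageField V) = d)
    (φ : Fin q → K) (hφ0 : ∀ i, φ i ≠ 0) (hφ : Submodule.span ℂ (Set.range φ) = V)
    (hc : Connected V φ) (R : ℕ) (hR : R = n + 2 ∨ (Different (n + 3) φ ∧ R = n + 1))
    (s : ℝ) (hs : (R : ℝ) * (((n : ℝ) - d + 1) * ((n : ℝ) - d + 2)) < 2 * s)
    (h : Multiplicities V φ v s) (hF : CyclicFibres (ImageField V) m t δ a) :
    ((∃ j, weight (m j) (δ j) (a j) < 2) →
      kodairaDim v (d + e) 0 = ⊥ ∧ ∀ A, Effective v A → numericalDim v (d + e) 0 A = ⊥) ∧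
    ((∀ j, 2 ≤ weight (m j) (δ j) (a j)) → kodairaDim v (d + e) 0 =
      ((d + (Finset.univ.filter fun j => 2 < weight (m j) (δ j) (a j)).card : ℕ) : WithBot ℕ) ∧
      ∀ A, Effective v A → Integral v A → numericalDim v (d + e) 0 A =
        ((d + (Finset.univ.filter fun j => 2 < weight (m j) (δ j) (a j)).card : ℕ) : EReal)) := by
  obtain ⟨hv, hK, hcan⟩ := hX
  change CyclicFibres (Pool.Agent.TH585.SV.rf V) m t δ a at hF
  obtain ⟨x, z, c, g, hcyc, hdeg⟩ := hF
  obtain ⟨k, rfl⟩ := Nat.exists_eq_add_of_le hdn
  have e1 : ((d + k : ℕ) : ℝ) - d = (k : ℝ) := by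
    push_cast
    ring
  rw [e1] at hs
  obtain ⟨h1, h2⟩ := Pool.Agent.V5SU.cyc_lin hv hK hcan hd rfl hn hV hφ0 hφ hc hR hs h hcyc
  simp only [wsum_eq hdeg] at h1 h2
  exact ⟨fun h => (h1 h).2, h2⟩

end Pool.Agent.Results.MP_97d78d_ag.SuperellipticLinearSystems
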